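import Mathlib

set_option autoImplicit false

namespace Pool.Agent.H.MP_79a0fa_pr
open scoped Topology Convolution
open Set Filter MeasureTheory Real

def T (f φ : ℝ → ℝ) : Prop := (∀ x ≤ 0, f x = 0) ∧ ∀ᶠ β in atTop,
  Integrable (fun x => exp (-(β * x)) * f x) ∧ ∫ x, exp (-(β * x)) * f x = φ β

noncomputable def cv (f g : ℝ → ℝ) (x : ℝ) : ℝ := ∫ t, f t * g (x - t)

noncomputable def H : ℝ → ℝ := (Ioi 0).indicator 1

variable {f g φ ψ : ℝ → ℝ}

theorem T.add (hf : T f φ) (hg : T g ψ) : T (fun x => f x + g x) fun β => φ β + ψ β :=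
  ⟨fun x hx => by simp [hf.1 x hx, hg.1 x hx], (hf.2.and hg.2).mono fun β ⟨a, b⟩ => by
    simp only [mul_add]
    exact ⟨a.1.add b.1, by rw [integral_add a.1 b.1, a.2, b.2]⟩⟩

theorem T.smul (hf : T f φ) (c : ℝ) : T (fun x => c * f x) fun β => c * φ β :=
  ⟨fun x hx => by simp [hf.1 x hx], hf.2.mono fun β a => by
    simp only [mul_left_comm _ c]
    exact ⟨a.1.const_mul c, by rw [integral_const_mul, a.2]⟩⟩

theorem T.congr (hf : T f φ) (h : ∀ᶠ β in atTop, φ β = ψ β) : T f ψ :=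
  ⟨hf.1, (hf.2.and h).mono fun _ ⟨a, b⟩ => ⟨a.1, a.2.trans b⟩⟩

theorem T.ae (hf : T f φ) (h : f =ᵐ[volume] g) (h0 : ∀ x ≤ 0, g x = 0) : T g φ :=
  ⟨h0, hf.2.mono fun β a => by
    have : (fun x => exp (-(β * x)) * f x) =ᵐ[volume] fun x => exp (-(β * x)) * g x :=
      h.mono fun x hx => by simp only [hx]
    exact ⟨a.1.congr this, (integral_congr_ae this).symm.trans a.2⟩⟩

theorem T.bdd (hf : T f φ) {ρ : ℝ → ℝ} (c : Continuous ρ) (b : ∀ x, |ρ x| ≤ 1) :
    ∃ ψ, T (fun x => ρ x * f x) ψ :=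
  ⟨_, fun x hx => by simp [hf.1 x hx], hf.2.mono fun β a =>
    ⟨by simpa only [mul_left_comm _ (ρ _)] using a.1.bdd_mul c.aestronglyMeasurable (.of_forall b),
      rfl⟩⟩

theorem T.loc (hf : T f φ) : LocallyIntegrable f := by
  obtain ⟨β, a⟩ := hf.2.exists
  have := a.1.locallyIntegrable.continuous_mul (g := fun x => exp (β * x)) (by fun_prop)
  simpa only [← mul_assoc, ← exp_add, add_neg_cancel, exp_zero, one_mul] using this

theorem cvb {β : ℝ} (a : Integrable fun x => exp (-(β * x)) * f x)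
    (b : Integrable fun x => exp (-(β * x)) * g x) :
    Integrable (fun x => exp (-(β * x)) * cv f g x) ∧ ∫ x, exp (-(β * x)) * cv f g x =
      (∫ x, exp (-(β * x)) * f x) * (∫ x, exp (-(β * x)) * g x) ∧
      ∫ x, ‖exp (-(β * x)) * cv f g x‖ ≤
        (∫ x, ‖exp (-(β * x)) * f x‖) * ∫ x, ‖exp (-(β * x)) * g x‖ := by
  have e : (fun x => exp (-(β * x)) * cv f g x) = (fun x => exp (-(β * x)) * f x)
      ⋆[ContinuousLinearMap.mul ℝ ℝ, volume] fun x => exp (-(β * x)) * g x := by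
    funext x
    rw [cv, ← integral_const_mul, convolution_def]
    congr 1
    funext t
    rw [show -(β * x) = -(β * t) + -(β * (x - t)) by ring, exp_add, ContinuousLinearMap.mul_apply']
    ring
  have i := a.integrable_convolution (ContinuousLinearMap.mul ℝ ℝ) b
  refine ⟨e ▸ i, by rw [e, integral_convolution _ a b]; rfl, ?_⟩
  refine le_trans (integral_mono (e ▸ i).norm (a.norm.integrable_convolution
    (ContinuousLinearMap.mul ℝ ℝ) b.norm) fun x => ?_) (integral_convolution _ a.norm b.norm).le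
  show ‖(fun x => exp (-(β * x)) * cv f g x) x‖ ≤ _
  rw [e, convolution_def, convolution_def]
  refine (norm_integral_le_integral_norm _).trans (le_of_eq ?_)
  simp only [ContinuousLinearMap.mul_apply', norm_mul]

theorem cv0 (hf : ∀ x ≤ 0, f x = 0) (hg : ∀ x ≤ 0, g x = 0) (x : ℝ) (hx : x ≤ 0) : cv f g x = 0 := by
  refine integral_eq_zero_of_ae (.of_forall fun t => ?_)
  rcases le_total t 0 with h | h
  · simp [hf t h]
  · simp [hg (x - t) (by linarith)]

theorem T.cv (hf : T f φ) (hg : T g ψ) : T (cv f g) fun β => φ β * ψ β :=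
  ⟨cv0 hf.1 hg.1, (hf.2.and hg.2).mono fun β ⟨a, b⟩ =>
    ⟨(cvb a.1 b.1).1, by rw [(cvb a.1 b.1).2.1, a.2, b.2]⟩⟩

theorem TH : T H fun β => β⁻¹ := by
  refine ⟨fun x hx => indicator_of_notMem (by simpa using hx) _,
    (eventually_gt_atTop 0).mono fun β hβ => ?_⟩
  have e : (fun x => exp (-(β * x)) * H x) = (Ioi 0).indicator fun x => exp (-β * x) := by
    funext x
    simp only [H, indicator]
    split_ifs <;> simp
  rw [e, integrable_indicator_iff measurableSet_Ioi, integral_indicator measurableSet_Ioi,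
    integral_exp_mul_Ioi (by linarith)]
  exact ⟨exp_neg_integrableOn_Ioi 0 hβ, by simp⟩

theorem mono {β γ : ℝ} (h0 : ∀ x ≤ 0, f x = 0) (x : ℝ) (h : β ≤ γ) :
    ‖exp (-(γ * x)) * f x‖ ≤ ‖exp (-(β * x)) * f x‖ := by
  rcases le_total x 0 with hx | hx
  · simp [h0 x hx]
  · rw [norm_mul, norm_mul, norm_of_nonneg (exp_pos _).le, norm_of_nonneg (exp_pos _).le]
    gcongr

theorem T.xmul (hf : T f φ) : ∃ ψ, T (fun x => x * f x) ψ ∧ ∀ᶠ β in atTop, HasDerivAt φ (-ψ β) β := by
  obtain ⟨B, hB⟩ := eventually_atTop.mp hf.2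
  have key : ∀ β, B + 2 < β → Integrable (fun x => -(exp (-(β * x)) * (x * f x))) ∧
      HasDerivAt (fun β => ∫ x, exp (-(β * x)) * f x) (∫ x, -(exp (-(β * x)) * (x * f x))) β := by
    intro β hβ
    refine hasDerivAt_integral_of_dominated_loc_of_deriv_le (Ioi_mem_nhds (show B + 1 < β by linarith))
      (F' := fun β x => -(exp (-(β * x)) * (x * f x))) (bound := fun x => ‖exp (-(B * x)) * f x‖)
      ((eventually_ge_nhds (show B < β by linarith)).mono fun γ h => (hB γ h).1.1)
      (hB β (by linarith)).1 ?_ (.of_forall fun x γ hγ => ?_) (hB B le_rfl).1.norm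
      (.of_forall fun x γ _ => ?_)
    · simp only [mul_left_comm _ (_ : ℝ) (f _)]
      exact (measurable_id.aestronglyMeasurable.mul (hB β (by linarith)).1.1).neg
    · rcases le_total x 0 with hx | hx
      · simp [hf.1 x hx]
      · rw [norm_neg, ← mul_assoc, norm_mul, norm_mul, norm_mul, norm_of_nonneg (exp_pos _).le,
          norm_of_nonneg (exp_pos _).le, norm_of_nonneg hx]
        refine mul_le_mul_of_nonneg_right ?_ (norm_nonneg _)
        calc exp (-(γ * x)) * x ≤ exp (-(γ * x)) * exp x := by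
              gcongr; linarith [add_one_le_exp x]
          _ ≤ _ := by
              rw [← exp_add, exp_le_exp]
              nlinarith [mem_Ioi.mp hγ]
    · refine ((((hasDerivAt_id γ).mul_const x).neg.exp).mul_const (f x)).congr_deriv ?_
      simp only [id, Pi.neg_apply]
      ring
  refine ⟨fun β => ∫ x, exp (-(β * x)) * (x * f x), ⟨fun x hx => by simp [hf.1 x hx],
    (eventually_gt_atTop _).mono fun β h => ⟨by simpa using (key β h).1.neg, rfl⟩⟩,
    (eventually_gt_atTop (B + 2)).mono fun β h => ?_⟩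
  simp only
  rw [← integral_neg]
  exact (key β h).2.congr_of_eventuallyEq ((eventually_ge_nhds (show B < β by linarith)).mono
    fun γ h => (hB γ h).2.symm)

theorem uq0 (hf : T f fun _ => 0) : f =ᵐ[volume] 0 := by
  obtain ⟨B, hB⟩ := eventually_atTop.mp hf.2
  set l := fun x => exp (-(B * x)) * f x with hl
  have il : Integrable l := (hB B le_rfl).1
  have h1 : ∀ p : Polynomial ℝ, Integrable (fun t => p.eval (exp (-t)) * l t) ∧
      ∫ t, p.eval (exp (-t)) * l t = 0 := fun p => by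
    induction p using Polynomial.induction_on' with
    | add p q hp hq =>
      simp only [Polynomial.eval_add, add_mul]
      exact ⟨hp.1.add hq.1, by rw [integral_add hp.1 hq.1, hp.2, hq.2, add_zero]⟩
    | monomial n c =>
      have := hB (B + n) (by simp)
      have e : ∀ t, (Polynomial.monomial n c).eval (exp (-t)) * l t =
          c * (exp (-((B + n) * t)) * f t) := fun t => by
        rw [Polynomial.eval_monomial, ← exp_nat_mul, hl, show -((B + n) * t) = n * -t + -(B * t) by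
          ring, exp_add]
        ring
      simp only [e]
      exact ⟨this.1.const_mul c, by rw [integral_const_mul, this.2, mul_zero]⟩
  have h2 : ∀ᵐ x, l x = 0 := by
    refine ae_eq_zero_of_integral_contDiff_smul_eq_zero il.locallyIntegrable fun g hg cg => ?_
    have hc := hg.continuous
    obtain ⟨R, R0, hR⟩ := cg.exists_pos_le_norm
    refine norm_le_zero_iff.1 (le_of_forall_pos_le_add fun ε hε => ?_)
    have hW : 0 < (∫ t, ‖l t‖) + 1 := by positivity
    obtain ⟨p, hp⟩ := exists_polynomial_near_of_continuousOn 0 1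
      (fun u => g (-log (max u (exp (-R))))) (hc.comp ((continuous_id.max continuous_const).log
        fun u => (lt_max_of_lt_right (exp_pos _)).ne').neg).continuousOn _ (div_pos hε hW)
    simp only [smul_eq_mul]
    obtain ⟨C, hC⟩ := hc.bounded_above_of_compact_support cg
    rw [← norm_neg, ← zero_sub, ← (h1 p).2, ← integral_sub (h1 p).1
      (il.bdd_mul hc.aestronglyMeasurable (.of_forall hC))]
    refine (norm_integral_le_of_norm_le (il.norm.const_mul (ε / ((∫ t, ‖l t‖) + 1)))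
      (.of_forall fun t => ?_)).trans ?_
    · rcases le_total t 0 with ht | ht
      · simp [hl, hf.1 t ht]
      rw [← sub_mul, norm_mul]
      have := hp (exp (-t)) ⟨(exp_pos _).le, exp_le_one_iff.mpr (by linarith)⟩
      refine mul_le_mul_of_nonneg_right (le_trans (le_of_eq ?_) this.le) (norm_nonneg _)
      rcases le_total t R with h | h
      · rw [max_eq_left (exp_le_exp.mpr (by linarith)), log_exp, neg_neg, Real.norm_eq_abs]
      · rw [max_eq_right (exp_le_exp.mpr (by linarith)), log_exp, neg_neg, Real.norm_eq_abs,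
          hR R (by simp [le_abs_self]), hR t (h.trans (le_abs_self _))]
    · rw [integral_const_mul, div_mul_eq_mul_div, div_le_iff₀ hW, (h1 p).2]
      linarith
  exact h2.mono fun x hx => (mul_eq_zero.mp hx).resolve_left (exp_pos _).ne'

theorem T.uq (hf : T f φ) (hg : T g φ) : f =ᵐ[volume] g :=
  (uq0 ((hf.add (hg.smul (-1))).congr (.of_forall fun β => by ring))).mono fun x hx => by
    simp only [Pi.zero_apply] at hx
    linarith

theorem T.eq (hf : T f φ) (hg : T g φ) (cf : ContinuousOn f (Ioi 0)) (cg : ContinuousOn g (Ioi 0)) :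
    f = g := funext fun x => by
  rcases le_or_gt x 0 with h | h
  · rw [hf.1 x h, hg.1 x h]
  · exact Measure.eqOn_open_of_ae_eq (ae_restrict_of_ae (hf.uq hg)) isOpen_Ioi cf cg h

theorem lemA {n : ℕ} (hf : T f φ) (hg : ContDiff ℝ n g) (h0 : ∀ x ≤ 0, g x = 0) :
    ContDiff ℝ n (cv f g) := by
  refine contDiff_iff_contDiffAt.mpr fun x => ?_
  let θ : ContDiffBump (0 : ℝ) := ⟨|x| + 2, |x| + 3, by positivity, by linarith⟩
  refine (((θ.hasCompactSupport.mul_right (f' := g)).contDiff_convolution_right (n := n)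
    (ContinuousLinearMap.mul ℝ ℝ) hf.loc (θ.contDiff.mul hg)).contDiffAt (x := x)).congr_of_eventuallyEq
    ((eventually_lt_nhds (lt_add_one x)).mono fun y hy => ?_)
  rw [cv, convolution_def]
  congr 1
  funext t
  rcases le_total t 0 with h | h
  · simp [hf.1 t h]
  rcases le_total (y - t) 0 with h' | h'
  · simp [h0 _ h']
  rw [ContinuousLinearMap.mul_apply', Pi.mul_apply, θ.one_of_mem_closedBall, one_mul]
  rw [mem_closedBall_zero_iff, norm_of_nonneg h']
  show _ ≤ |x| + 2
  linarith [le_abs_self x]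

theorem T.ii (hf : T f φ) (a b : ℝ) : IntervalIntegrable f volume a b :=
  (hf.loc.integrableOn_isCompact isCompact_uIcc).intervalIntegrable

theorem T.prim (hf : T f φ) : Pool.Agent.H.MP_79a0fa_pr.cv f H = fun x => ∫ t in (0 : ℝ)..x, f t := by
  funext x
  rcases le_total x 0 with h | h
  · rw [cv0 hf.1 TH.1 x h, intervalIntegral.integral_symm, intervalIntegral.integral_of_le h,
      setIntegral_eq_zero_of_forall_eq_zero fun t ht => hf.1 t ht.2, neg_zero]
  rw [intervalIntegral.integral_of_le h, integral_Ioc_eq_integral_Ioo,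
    ← integral_indicator measurableSet_Ioo, Pool.Agent.H.MP_79a0fa_pr.cv]
  congr 1
  funext t
  rcases le_or_gt t 0 with h' | h'
  · simp [hf.1 t h', indicator]
  · simp [H, indicator, h']

theorem T.pc (hf : T f φ) : Continuous (Pool.Agent.H.MP_79a0fa_pr.cv f H) := by
  rw [hf.prim]
  exact intervalIntegral.continuous_primitive hf.ii 0

theorem T.pd (hf : T f φ) {x : ℝ} (h : ContinuousAt f x) :
    HasDerivAt (Pool.Agent.H.MP_79a0fa_pr.cv f H) (f x) x := by
  rw [hf.prim]
  exact intervalIntegral.integral_hasDerivAt_right (hf.ii _ _)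
    hf.loc.aestronglyMeasurable.stronglyMeasurableAtFilter h

theorem dif {F : ℝ → ℝ} {U : Set ℝ} (hU : IsOpen U) (h : ∀ x ∈ U, HasDerivAt F (f x) x) (n : ℕ) :
    ContDiffOn ℝ (n + 1 : ℕ) F U ↔ ContDiffOn ℝ n f U := by
  rw [Nat.cast_succ, contDiffOn_succ_iff_deriv_of_isOpen hU,
    contDiffOn_congr (f := f) fun x hx => (h x hx).deriv]
  exact ⟨fun h => h.2.2, fun h' => ⟨fun x hx => (h x hx).differentiableAt.differentiableWithinAt,
    by simp, h'⟩⟩

theorem cut {n : ℕ} {δ : ℝ} (hδ : 0 < δ) (hf : ContDiffOn ℝ n f (Ioi 0)) :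
    ContDiff ℝ n fun x => smoothTransition (x / δ - 1) * f x := by
  refine contDiff_iff_contDiffAt.mpr fun x => ?_
  rcases lt_or_ge 0 x with h | h
  · exact (smoothTransition.contDiff.comp (by fun_prop)).contDiffAt.mul
      (hf.contDiffAt (Ioi_mem_nhds h))
  · refine (contDiffAt_const (c := 0)).congr_of_eventuallyEq
      ((eventually_lt_nhds (h.trans_lt hδ)).mono fun y hy => ?_)
    simp only
    rw [smoothTransition.zero_of_nonpos, zero_mul]
    rw [sub_nonpos, div_le_one hδ]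
    exact hy.le

theorem step {p ϖ w ω : ℝ → ℝ} {m : ℕ} (hp : T p ϖ) (hw : T w ω)
    (c1 : ContDiffOn ℝ (m + 1 : ℕ) (cv p H) (Ioi 0)) (c2 : ContDiffOn ℝ m w (Ioi 0)) :
    ContDiffOn ℝ (m + 1 : ℕ) (cv w (cv p H)) (Ioi 0) := by
  intro x (hx : 0 < x)
  set δ := x / 5
  have δ0 : 0 < δ := by positivity
  set ρ := fun x => smoothTransition (x / δ - 1) with hρ
  have cρ : Continuous ρ := smoothTransition.continuous.comp (by fun_prop)
  have bρ : ∀ x, |ρ x| ≤ 1 := fun x => abs_le.mpr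
    ⟨by linarith [smoothTransition.nonneg (x / δ - 1)], smoothTransition.le_one _⟩
  have hP := hp.cv TH
  obtain ⟨ω1, w1⟩ := hw.bdd cρ bρ
  obtain ⟨ϖ1, P1⟩ := hP.bdd cρ bρ
  have w2 := hw.add (w1.smul (-1))
  have P2 := hP.add (P1.smul (-1))
  have a1 : ContDiff ℝ (m + 1 : ℕ) (cv (fun x => ρ x * w x) H) := by
    rw [← contDiffOn_univ, dif isOpen_univ fun x _ => w1.pd (cut δ0 c2).continuous.continuousAt]
    exact (cut δ0 c2).contDiffOn
  have a2 := (lemA hp a1 (w1.cv TH).1).add (lemA w2 (cut δ0 c1) P1.1)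
  have a3 := (hw.cv hP).uq ((((hp.cv (w1.cv TH)).add (w2.cv P1)).add (w2.cv P2)).congr
    (.of_forall fun β => by ring))
  refine (a2.contDiffAt.congr_of_eventuallyEq (eventually_of_mem (Ioi_mem_nhds
    (show 4 * δ < x by simp only [δ]; linarith)) (Measure.eqOn_open_of_ae_eq
    ((ae_restrict_iff' measurableSet_Ioi).mpr (a3.mono fun y h1 h2 => ?_)) isOpen_Ioi
    (lemA (n := 0) hw (contDiff_zero.mpr hp.pc) hP.1).continuous.continuousOn
    a2.continuous.continuousOn))).contDiffWithinAt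
  rw [h1, add_eq_left]
  refine integral_eq_zero_of_ae (.of_forall fun t => ?_)
  have e : ∀ s, 2 * δ ≤ s → ρ s = 1 := fun s hs => smoothTransition.one_of_one_le (by
    rw [le_sub_iff_add_le, le_div_iff₀ δ0]; linarith)
  rcases le_total (2 * δ) t with h | h
  · simp [e t h]
  · simp [e (y - t) (by linarith [mem_Ioi.mp h2])]

theorem rel {h γ η a α : ℝ → ℝ} {c d : ℝ} (hg : T g γ) (hh : T h η) (ha : T a α)
    (e : (fun x => x * g x) = cv a H) (r : ∀ᶠ β in atTop, (c + γ β) * (d + η β) = 1) :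
    ∃ b β', T b β' ∧ T (fun x => x * h x) (fun β => β' β * β⁻¹) ∧ ∀ m : ℕ,
      ContDiffOn ℝ (m + 1 : ℕ) g (Ioi 0) → ContDiffOn ℝ m h (Ioi 0) →
      ContDiffOn ℝ (m + 1 : ℕ) (cv b H) (Ioi 0) := by
  obtain ⟨γ1, g1, g2⟩ := hg.xmul
  obtain ⟨η1, h1, h2⟩ := hh.xmul
  have hP := ha.cv TH
  have hb := ((ha.smul (-d ^ 2)).add ((hh.cv ha).smul (-2 * d))).add
    ((hh.cv (hh.cv ha)).smul (-1))
  have ev : ∀ᶠ β in atTop, ∀ᶠ γ' in 𝓝 β, (c + γ γ') * (d + η γ') = 1 := by
    obtain ⟨B, hB⟩ := eventually_atTop.mp r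
    exact (eventually_gt_atTop B).mono fun β h => (eventually_ge_nhds h).mono hB
  refine ⟨_, _, hb, h1.congr ?_, fun m c1 c2 => ?_⟩
  · filter_upwards [g1.2, hP.2, g2, h2, ev] with β a1 a2 a3 a4 a5
    have b1 : γ1 β = α β * β⁻¹ := by rw [← a1.2, ← a2.2, ← e]
    have b2 := ((a3.const_add c).mul (a4.const_add d)).unique
      ((hasDerivAt_const β 1).congr_of_eventuallyEq a5)
    linear_combination (-(d + η β)) * b2 - η1 β * a5.self_of_nhds - (d + η β) ^ 2 * b1
  have c0 : ∀ {u υ}, T u υ → cv h (cv u H) = cv (cv h u) H := fun hu =>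
    (hh.cv (hu.cv TH)).eq (((hh.cv hu).cv TH).congr (.of_forall fun β => by ring))
      (lemA (n := 0) hh (contDiff_zero.mpr hu.pc) (hu.cv TH).1).continuous.continuousOn
      (hh.cv hu).pc.continuousOn
  have d1 : ContDiffOn ℝ (m + 1 : ℕ) (cv a H) (Ioi 0) := e ▸ contDiffOn_id.mul c1
  have d2 := c0 ha ▸ step ha hh d1 c2
  have d3 := c0 (hh.cv ha) ▸ step (hh.cv ha) hh d2 c2
  have d4 := ((contDiffOn_const (c := -d ^ 2).mul d1).add
    (contDiffOn_const (c := -2 * d).mul d2)).add (contDiffOn_const (c := -1).mul d3)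
  rwa [(hb.cv TH).eq ((((hP.smul (-d ^ 2)).add (((hh.cv ha).cv TH).smul (-2 * d))).add
    (((hh.cv (hh.cv ha)).cv TH).smul (-1))).congr (.of_forall fun β => by ring))
    hb.pc.continuousOn d4.continuousOn]

theorem ind {h γ η a α : ℝ → ℝ} {c d : ℝ} (hg : T g γ) (hh : T h η) (ha : T a α)
    (e : (fun x => x * g x) = cv a H) (r : ∀ᶠ β in atTop, (c + γ β) * (d + η β) = 1)
    (ch : ContinuousOn h (Ioi 0)) : (∃ b β', T b β' ∧ (fun x => x * h x) = cv b H) ∧
      ∀ m : ℕ, ContDiffOn ℝ m g (Ioi 0) → ContDiffOn ℝ m h (Ioi 0) := by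
  obtain ⟨b, β', hb, h1, h2⟩ := rel hg hh ha e r
  have e1 := h1.eq (hb.cv TH) (continuousOn_id.mul ch) hb.pc.continuousOn
  refine ⟨⟨b, β', hb, e1⟩, fun m => ?_⟩
  induction m with
  | zero => exact fun _ => contDiffOn_zero.mpr ch
  | succ m ih =>
    intro c1
    refine ((e1 ▸ h2 m c1 (ih (c1.of_le (by simp)))).div contDiffOn_id
      fun x hx => ne_of_gt hx).congr fun x hx => ?_
    exact (mul_div_cancel_left₀ _ (ne_of_gt hx)).symm

theorem ser {γ : ℝ → ℝ} {c : ℝ} (hg : T g γ) (hc : c ≠ 0) :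
    ∃ h η, T h η ∧ ∀ᶠ β in atTop, (c + γ β) * (c⁻¹ + η β) = 1 := by
  obtain ⟨B, hB⟩ := eventually_atTop.mp hg.2
  have t : Tendsto (fun β => ∫ x, ‖exp (-(β * x)) * g x‖) atTop (𝓝 (∫ _ : ℝ, 0)) := by
    refine tendsto_integral_filter_of_dominated_convergence (fun x => ‖exp (-(B * x)) * g x‖)
      (hg.2.mono fun β a => a.1.norm.1) ((eventually_ge_atTop B).mono fun β h =>
        .of_forall fun x => by rw [norm_norm]; exact mono hg.1 x h) (hB B le_rfl).1.norm
      (.of_forall fun x => ?_)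
    rcases le_or_gt x 0 with h | h
    · simp [hg.1 x h]
    · simpa using ((tendsto_exp_neg_atTop_nhds_zero.comp
        (tendsto_id.atTop_mul_const h)).mul_const (g x)).norm
  rw [integral_zero] at t
  let G : ℕ → ℝ → ℝ := fun n => n.rec g fun _ u => cv g u
  have G0 : ∀ n, ∀ x ≤ 0, G n x = 0 := fun n => by
    induction n with
    | zero => exact hg.1
    | succ n ih => exact cv0 hg.1 ih
  have key : ∀ᶠ β in atTop, Integrable (fun x => exp (-(β * x)) *
      ∑' n, c⁻¹ * (-c⁻¹) ^ (n + 1) * G n x) ∧ (c + γ β) * (c⁻¹ + ∫ x, exp (-(β * x)) *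
      ∑' n, c⁻¹ * (-c⁻¹) ^ (n + 1) * G n x) = 1 := by
    filter_upwards [hg.2, t.eventually_lt_const (abs_pos.mpr hc)] with β a1 a2
    set q := ∫ x, ‖exp (-(β * x)) * g x‖
    have q0 : 0 ≤ q := by positivity
    have k : ∀ n, Integrable (fun x => exp (-(β * x)) * G n x) ∧
        ∫ x, exp (-(β * x)) * G n x = γ β ^ (n + 1) ∧
        ∫ x, ‖exp (-(β * x)) * G n x‖ ≤ q ^ (n + 1) := fun n => by
      induction n with
      | zero => exact ⟨a1.1, by rw [zero_add, pow_one]; exact a1.2, by rw [zero_add, pow_one]; rfl⟩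
      | succ n ih =>
        obtain ⟨b1, b2, b3⟩ := cvb a1.1 ih.1
        exact ⟨b1, by rw [pow_succ', ← ih.2.1, ← a1.2]; exact b2,
          b3.trans (by rw [pow_succ' q]; exact mul_le_mul_of_nonneg_left ih.2.2 q0)⟩
    simp only [← tsum_mul_left, mul_left_comm (exp _)]
    have i : ∀ n, Integrable fun x => c⁻¹ * (-c⁻¹) ^ (n + 1) * (exp (-(β * x)) * G n x) :=
      fun n => (k n).1.const_mul _
    have q1 : |c|⁻¹ * q < 1 := by rwa [inv_mul_lt_iff₀ (abs_pos.mpr hc), mul_one]
    have s : Summable fun n => ∫ x, ‖c⁻¹ * (-c⁻¹) ^ (n + 1) * (exp (-(β * x)) * G n x)‖ := by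
      refine .of_nonneg_of_le (fun n => by positivity) (fun n => ?_)
        (((summable_nat_add_iff 1).mpr (summable_geometric_of_lt_one (by positivity) q1)).mul_left
          |c|⁻¹)
      simp only [norm_mul (c⁻¹ * _), integral_const_mul]
      rw [norm_mul, norm_pow, norm_neg, norm_inv, Real.norm_eq_abs, mul_pow, mul_assoc]
      gcongr
      exact (k n).2.2
    constructor
    · refine ⟨.tsum fun n => (i n).1, lt_of_le_of_lt (lintegral_mono fun x =>
        enorm_tsum_le_tsum_enorm) ?_⟩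
      rw [lintegral_tsum fun n => (i n).1.enorm]
      simp only [← ofReal_integral_norm_eq_lintegral_enorm (i _)]
      rw [← ENNReal.ofReal_tsum_of_nonneg (fun n => by positivity) s]
      exact ENNReal.ofReal_lt_top
    · have r1 : |-c⁻¹ * γ β| < 1 := by
        rw [abs_mul, abs_neg, abs_inv]
        refine lt_of_le_of_lt (mul_le_mul_of_nonneg_left ?_ (by positivity)) q1
        rw [← a1.2]
        exact norm_integral_le_integral_norm fun x => exp (-(β * x)) * g x
      have s1 := hasSum_integral_of_summable_integral_norm i s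
      simp only [integral_const_mul, (k _).2.1, mul_assoc c⁻¹, ← mul_pow] at s1
      have s2 := ((hasSum_geometric_of_abs_lt_one r1).mul_left (-c⁻¹ * γ β)).mul_left c⁻¹
      simp only [← pow_succ'] at s2
      have r2 : 1 - -c⁻¹ * γ β ≠ 0 := by linarith [(abs_lt.mp r1).2]
      have r3 : c + γ β ≠ 0 := fun h => r2 (by field_simp; linarith)
      simp only [mul_assoc c⁻¹]
      rw [s1.unique s2, show 1 - -c⁻¹ * γ β = c⁻¹ * (c + γ β) by field_simp; ring]
      field_simp
      ring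
  exact ⟨_, _, ⟨fun x hx => by simp [G0 _ x hx], key.mono fun β a => ⟨a.1, rfl⟩⟩,
    key.mono fun β a => a.2⟩

theorem main {γ a α W : ℝ → ℝ} {c : ℝ} (hg : T g γ) (ha : T a α) (e : (fun x => x * g x) = cv a H)
    (hc : c ≠ 0) (hW : T W fun β => 1 / (β ^ 2 * (c + γ β))) (cW : ContinuousOn W (Ioi 0)) (m : ℕ) :
    ContDiffOn ℝ (m + 2 : ℕ) W (Ioi 0) ↔ ContDiffOn ℝ m g (Ioi 0) := by
  obtain ⟨h0, η, hh0, r⟩ := ser hg hc
  obtain ⟨b0, β0, hb0, h1, -⟩ := rel hg hh0 ha e r
  have ch : ContinuousOn (fun x => cv b0 H x / x) (Ioi 0) :=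
    hb0.pc.continuousOn.div continuousOn_id fun x hx => ne_of_gt hx
  have hh : T (fun x => cv b0 H x / x) η := by
    refine hh0.ae ?_ fun x hx => by rw [(hb0.cv TH).1 x hx, zero_div]
    filter_upwards [h1.uq (hb0.cv TH), Measure.ae_ne volume 0] with x h2 h3
    rw [← h2, mul_div_cancel_left₀ _ h3]
  set h := fun x => cv b0 H x / x
  obtain ⟨⟨b, β', hb, e1⟩, i1⟩ := ind hg hh ha e r ch
  have cg : ContinuousOn g (Ioi 0) := ((e ▸ ha.pc).continuousOn.div continuousOn_id
    fun x hx => ne_of_gt hx).congr fun x hx => (mul_div_cancel_left₀ _ (ne_of_gt hx)).symm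
  have i2 := (ind hh hg hb e1 (r.mono fun β h => by rwa [mul_comm]) cg).2
  have h2 := (TH.smul c⁻¹).add (hh.cv TH)
  have d2 : ∀ x ∈ Ioi (0 : ℝ), HasDerivAt (fun x => c⁻¹ * H x + cv h H x) (h x) x := fun x hx =>
    ((hh.pd (ch.continuousAt (Ioi_mem_nhds hx))).const_add c⁻¹).congr_of_eventuallyEq
      (eventually_of_mem (Ioi_mem_nhds hx) fun y hy => by simp [H, hy])
  rw [hW.eq ((h2.cv TH).congr (r.mono fun β h => ?_)) cW h2.pc.continuousOn,
    dif isOpen_Ioi fun x hx => h2.pd (d2 x hx).continuousAt, dif isOpen_Ioi d2]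
  · exact ⟨i2 m, i1 m⟩
  · rw [one_div, mul_inv, inv_eq_of_mul_eq_one_right h]
    ring

end Pool.Agent.H.MP_79a0fa_pr
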