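import Pool.Agent.H.MP_79a0fa_pr.A

set_option autoImplicit false

namespace Pool.Agent.H.MP_79a0fa_pr
open scoped Topology
open Set Filter MeasureTheory Real

theorem mH : Measurable H := measurable_one.indicator measurableSet_Ioi

theorem hb {β : ℝ} (hβ : 0 < β) : Integrable (fun x => exp (-(β * x)) * H x) ∧
    ∫ x, exp (-(β * x)) * H x = β⁻¹ := by
  have e : (fun x => exp (-(β * x)) * H x) = (Ioi 0).indicator fun x => exp (-β * x) := by
    funext x
    simp only [H, indicator]
    split_ifs <;> simp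
  rw [e, integrable_indicator_iff measurableSet_Ioi, integral_indicator measurableSet_Ioi,
    integral_exp_mul_Ioi (by linarith)]
  exact ⟨exp_neg_integrableOn_Ioi 0 hβ, by simp⟩

theorem rb {β : ℝ} (hβ : 0 < β) : Integrable (fun x => exp (-(β * x)) * max x 0) ∧
    ∫ x, exp (-(β * x)) * max x 0 = β⁻¹ * β⁻¹ := by
  have e : cv H H = fun x => max x 0 := funext fun x => by
    rcases le_total x 0 with h | h
    · rw [cv0 TH.1 TH.1 x h, max_eq_right h]
    · rw [TH.prim, max_eq_left h]
      simp only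
      rw [intervalIntegral.integral_of_le h, setIntegral_congr_fun (f := H) measurableSet_Ioc
        (g := fun _ => 1) fun t ht => by simp [H, ht.1]]
      simp [h]
  have := cvb (hb hβ).1 (hb hβ).1
  rw [e, (hb hβ).2] at this
  exact ⟨this.1, this.2.1⟩

theorem kb {β s : ℝ} (hβ : 0 < β) (hs : 0 ≤ s) :
    β ^ 2 * ∫ x, exp (-(β * x)) * (H x * (min s 1 - min s x)) = exp (-(β * s)) - 1 + β * min s 1 := by
  have e : ∀ x, exp (-(β * x)) * (H x * (min s 1 - min s x)) = min s 1 * (exp (-(β * x)) * H x) -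
      exp (-(β * x)) * max x 0 + exp (-(β * s)) * (exp (-(β * (x - s))) * max (x - s) 0) := fun x => by
    rw [← mul_assoc (exp (-(β * s))), ← exp_add, show -(β * s) + -(β * (x - s)) = -(β * x) by ring]
    rcases le_or_gt x 0 with h | h
    · simp [TH.1 x h, h, h.trans hs]
    · rcases le_total s x with h' | h' <;> simp [H, h, h', h.le] <;> ring
  simp only [e]
  rw [integral_add (by exact ((hb hβ).1.const_mul _).sub (rb hβ).1)
      (((rb hβ).1.comp_sub_right s).const_mul _),
    integral_sub ((hb hβ).1.const_mul _) (rb hβ).1, integral_const_mul, integral_const_mul,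
    integral_sub_right_eq_self (fun x => exp (-(β * x)) * max x 0) s, (hb hβ).2, (rb hβ).2]
  field_simp
  ring

section
variable {μ : Measure ℝ} (h0 : μ (Ici 0) = 0) (h1 : ∫⁻ x, ENNReal.ofReal (min 1 (x ^ 2)) ∂μ < ⊤)
include h1

theorem im : Integrable (fun x : ℝ => min 1 (x ^ 2)) μ :=
  ⟨by fun_prop, (hasFiniteIntegral_iff_ofReal (.of_forall fun x => by positivity)).mpr h1⟩

theorem fm {x : ℝ} (hx : 0 < x) : μ (Iic (-x)) < ⊤ := by
  refine (measure_mono fun y hy => ?_).trans_lt
    ((im h1).measure_ge_lt_top (ε := min 1 (x ^ 2)) (by positivity))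
  exact min_le_min_left (1 : ℝ) (show x ^ 2 ≤ y ^ 2 by nlinarith [mem_Iic.mp hy])

theorem fm' {x : ℝ} (hx : 0 < x) : μ (Iio (-x)) < ⊤ :=
  (measure_mono Iio_subset_Iic_self).trans_lt (fm h1 hx)

include h0

theorem sf : SigmaFinite μ := by
  refine ⟨⟨⟨fun n => Iic (-(1 / (n + 1 : ℝ))) ∪ Ici 0, fun _ => trivial, fun n => ?_,
    eq_univ_of_forall fun x => ?_⟩⟩⟩
  · exact measure_union_lt_top (fm h1 (by positivity)) (by simp [h0])
  · rcases lt_or_ge x 0 with h | h
    · obtain ⟨n, hn⟩ := exists_nat_one_div_lt (neg_pos.mpr h)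
      exact mem_iUnion.mpr ⟨n, Or.inl (by rw [mem_Iic]; linarith)⟩
    · exact mem_iUnion.mpr ⟨0, Or.inr h⟩

omit h1 in
theorem neg : ∀ᵐ y ∂μ, y < 0 := by
  rw [ae_iff]
  simp only [not_lt]
  exact h0

theorem dom {F : ℝ → ℝ → ℝ} (m : Measurable (Function.uncurry F)) {β : ℝ} (hβ : 1 ≤ β)
    (b1 : ∀ y < 0, ∀ x, 0 < x → x < min (-y) 1 → |F y x| ≤ min (-y) 1)
    (b2 : ∀ y < 0, ∀ x, min (-y) 1 ≤ x → |F y x| ≤ if y < -1 then x else 0) :
    Integrable (fun p : ℝ × ℝ => exp (-(β * p.2)) * (H p.2 * F p.1 p.2)) (μ.prod volume) := by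
  have := sf h0 h1
  have i1 : Integrable ({p : ℝ × ℝ | 0 < p.2 ∧ p.2 < min (-p.1) 1}.indicator fun p => min (-p.1) 1)
      (μ.prod volume) := by
    have e : ∀ y : ℝ, (fun x : ℝ => {p : ℝ × ℝ | 0 < p.2 ∧ p.2 < min (-p.1) 1}.indicator
        (fun p => min (-p.1) 1) (y, x)) = (Ioo 0 (min (-y) 1)).indicator fun _ => min (-y) 1 :=
      fun y => rfl
    refine (integrable_prod_iff (Measurable.indicator (by fun_prop) (by measurability)
      ).aestronglyMeasurable).mpr ⟨.of_forall fun y => ?_, (im h1).congr ((neg h0).mono fun y hy => ?_)⟩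
    · rw [e, integrable_indicator_iff measurableSet_Ioo]
      exact integrableOn_const (by simp)
    · have a : 0 ≤ min (-y) 1 := le_min (by linarith) zero_le_one
      have e2 := congrFun (e y)
      simp only [e2, norm_indicator_eq_indicator_norm]
      rw [integral_indicator measurableSet_Ioo, setIntegral_const, norm_of_nonneg a]
      simp only [volume_real_Ioo, sub_zero, max_eq_left a, smul_eq_mul]
      rcases le_total (-y) 1 with h | h
      · rw [min_eq_left h, min_eq_right (by nlinarith)]; ring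
      · rw [min_eq_right h, min_eq_left (by nlinarith)]; ring
  have i2 := ((integrable_indicator_iff measurableSet_Iio).mpr
    (integrableOn_const (C := (1 : ℝ)) (fm' h1 one_pos).ne)).mul_prod (rb one_pos).1
  refine (i1.add i2).mono' (Measurable.aestronglyMeasurable ?_) ?_
  · exact (by fun_prop : Measurable fun p : ℝ × ℝ => exp (-(β * p.2))).mul
      ((mH.comp measurable_snd).mul m)
  filter_upwards [Measure.quasiMeasurePreserving_fst.ae (neg h0)] with ⟨y, x⟩ hy
  have n1 : 0 ≤ {p : ℝ × ℝ | 0 < p.2 ∧ p.2 < min (-p.1) 1}.indicator (fun p => min (-p.1) 1) (y, x) :=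
    indicator_nonneg (fun p hp => (hp.1.trans hp.2).le) _
  have n2 : 0 ≤ (Iio (-1 : ℝ)).indicator (fun _ => (1 : ℝ)) y * (exp (-(1 * x)) * max x 0) :=
    mul_nonneg (indicator_nonneg (fun _ _ => zero_le_one) _) (by positivity)
  simp only [Pi.add_apply]
  rcases le_or_gt x 0 with h | h
  · simpa [TH.1 x h] using add_nonneg n1 n2
  have e1 : exp (-(β * x)) ≤ exp (-(1 * x)) := exp_le_exp.mpr (by nlinarith)
  have e2 : exp (-(β * x)) ≤ 1 := exp_le_one_iff.mpr (by nlinarith)
  rw [H, indicator_of_mem (mem_Ioi.mpr h), Pi.one_apply, one_mul, norm_mul,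
    norm_of_nonneg (exp_pos _).le, Real.norm_eq_abs]
  rcases lt_or_ge x (min (-y) 1) with h' | h'
  · rw [indicator_of_mem (by exact ⟨h, h'⟩)]
    exact le_add_of_le_of_nonneg ((mul_le_of_le_one_left (abs_nonneg _) e2).trans (b1 y hy x h h')) n2
  · refine le_add_of_nonneg_of_le n1 ((mul_le_mul e1 (b2 y hy x h') (abs_nonneg _)
      (exp_pos _).le).trans (le_of_eq ?_))
    simp only [indicator, mem_Iio, max_eq_left h.le]
    split_ifs <;> simp

theorem Tg : ∃ γ, T (fun x => H x * ∫ y, (min (-y) 1 - min (-y) x) ∂μ) γ ∧ ∀ᶠ β in atTop,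
    ∫ x, (exp (β * x) - 1 - (Ioi (-1 : ℝ)).indicator (fun y => β * y) x) ∂μ =
      β ^ 2 * γ β - β * μ.real (Iic (-1)) := by
  have := sf h0 h1
  have i : ∀ β, 1 ≤ β → Integrable (fun p : ℝ × ℝ => exp (-(β * p.2)) *
      (H p.2 * (min (-p.1) 1 - min (-p.1) p.2))) (μ.prod volume) := fun β hβ =>
    dom h0 h1 (F := fun y x => min (-y) 1 - min (-y) x) (by fun_prop) hβ
      (fun y hy x a b => by rw [abs_le]; grind) fun y hy x a => by rw [abs_le]; grind
  refine ⟨_, ⟨fun x hx => by simp [TH.1 x hx], (eventually_ge_atTop 1).mono fun β hβ =>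
    ⟨by simpa only [integral_const_mul] using (i β hβ).integral_prod_right, rfl⟩⟩,
    (eventually_ge_atTop 1).mono fun β hβ => ?_⟩
  simp only [← integral_const_mul (H _), ← integral_const_mul (exp _)]
  rw [← integral_integral_swap (i β hβ), ← integral_const_mul,
    ← integral_indicator_one measurableSet_Iic, ← integral_const_mul,
    ← integral_sub (by exact (i β hβ).integral_prod_left.const_mul _)
      (by exact ((integrable_indicator_iff
      measurableSet_Iic).mpr (integrableOn_const (fm h1 one_pos).ne)).const_mul _)]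
  refine integral_congr_ae ((neg h0).mono fun y hy => ?_)
  simp only
  rw [kb (by linarith) (by linarith), mul_neg, neg_neg]
  rcases lt_or_ge (-1) y with h | h
  · rw [indicator_of_mem (mem_Ioi.mpr h), indicator_of_notMem (by simpa using h),
      min_eq_left (by linarith)]
    ring
  · rw [indicator_of_notMem (by simpa using h), indicator_of_mem (mem_Iic.mpr h),
      min_eq_right (by linarith), Pi.one_apply]
    ring

theorem TT : ∃ γ, T (fun x => H x * (x * μ.real (Iio (-x)))) γ := by
  have := sf h0 h1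
  refine ⟨_, fun x hx => by simp [TH.1 x hx], (eventually_ge_atTop 1).mono fun β hβ => ⟨?_, rfl⟩⟩
  have := (dom h0 h1 (F := fun y x => if y < -x then x else 0)
    (Measurable.ite (by measurability) measurable_snd measurable_const) hβ
    (fun y hy x a b => by rw [abs_le]; grind) fun y hy x a => by
      rw [abs_le]; grind).integral_prod_right
  simp only [integral_const_mul] at this
  refine this.congr (.of_forall fun x => ?_)
  simp only
  rw [← integral_indicator_one measurableSet_Iio, ← integral_const_mul x]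
  congr 3
  funext y
  simp [indicator]

theorem cA (X : ℝ) : ContinuousOn (fun x => x * ∫ y, (min (-y) 1 - min (-y) x) ∂μ) (Icc 0 X) := by
  simp only [← integral_const_mul]
  refine continuousOn_of_dominated (bound := fun y => (1 + X) ^ 2 * min 1 (y ^ 2))
    (fun x _ => by fun_prop) (fun x hx => (neg h0).mono fun y hy => ?_) ((im h1).const_mul _)
    (.of_forall fun y => by fun_prop)
  have := hx.1
  have := hx.2
  rw [Real.norm_eq_abs, abs_le]
  rcases le_total (-y) 1 with h | h
  · rw [min_eq_left h, min_eq_right (a := 1) (by nlinarith)]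
    have : y ^ 2 ≤ (1 + X) ^ 2 * y ^ 2 := le_mul_of_one_le_left (by positivity) (by nlinarith)
    rcases le_total (-y) x with h' | h'
    · rw [min_eq_left h']; constructor <;> nlinarith
    · rw [min_eq_right h']; constructor <;> nlinarith
  · rw [min_eq_right h, min_eq_left (a := 1) (by nlinarith)]
    have a1 := min_le_right (-y) x
    have a2 : 0 ≤ min (-y) x := le_min (by linarith) hx.1
    constructor <;> nlinarith

omit h0 in
theorem dg {x : ℝ} (hx : 0 < x) (h : μ {-x} = 0) :
    HasDerivAt (fun x => ∫ y, (min (-y) 1 - min (-y) x) ∂μ) (-μ.real (Iio (-x))) x := by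
  have i : ∀ z : ℝ, 0 < z → Integrable ((Iio (-z)).indicator (1 : ℝ → ℝ)) μ := fun z hz =>
    (integrable_indicator_iff measurableSet_Iio).mpr (integrableOn_const (fm' h1 hz).ne)
  rw [← integral_indicator_one measurableSet_Iio, ← integral_neg]
  refine (hasDerivAt_integral_of_dominated_loc_of_lip (Ioi_mem_nhds (half_lt_self hx))
    (bound := (Iio (-(x / 2))).indicator 1) (.of_forall fun x => by fun_prop) ?_ (i x hx).neg.1
    (.of_forall fun y => LipschitzOnWith.of_dist_le_mul fun a ha b hb => ?_) (i _ (half_pos hx)) ?_).2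
  · refine ((i _ (lt_min hx one_pos)).const_mul (1 + x)).mono' (by fun_prop) (.of_forall fun y => ?_)
    simp only [indicator, mem_Iio, Pi.one_apply, Real.norm_eq_abs, abs_le]
    clear i
    split_ifs <;> grind
  · simp only [indicator, mem_Iio, Pi.one_apply, Real.dist_eq, coe_nnabs, mem_Ioi] at ha hb ⊢
    split_ifs with h
    · rw [abs_one, one_mul, abs_le]
      have := le_abs_self (a - b)
      have := neg_abs_le (a - b)
      grind
    · rw [min_eq_left (b := a) (by linarith), min_eq_left (b := b) (by linarith)]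
      simp
  · filter_upwards [measure_eq_zero_iff_ae_notMem.mp h] with y hy
    rcases lt_or_gt_of_ne (show y ≠ -x from hy) with h | h
    · rw [Pi.neg_apply, indicator_of_mem (mem_Iio.mpr h)]
      exact ((hasDerivAt_id x).const_sub (min (-y) 1)).congr_of_eventuallyEq
        ((eventually_lt_nhds (show x < -y by linarith)).mono fun z hz => by simp [hz.le])
    · rw [Pi.neg_apply, indicator_of_notMem (by simpa using h.le), neg_zero]
      exact (hasDerivAt_const x (min (-y) 1 - -y)).congr_of_eventuallyEq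
        ((eventually_gt_nhds (show -y < x by linarith)).mono fun z hz => by simp [hz.le])

omit h0 in
theorem jump {x z : ℝ} (hz : 0 < z) (h : z < x) :
    μ.real {-x} + μ.real (Iio (-x)) ≤ μ.real (Iio (-z)) := by
  have a : μ ({-x} ∪ Iio (-x)) ≤ μ (Iio (-z)) := measure_mono (by
    rintro y (rfl | hy) <;> simp only [mem_Iio] at * <;> linarith)
  have b := (fm' h1 hz).ne
  rw [← measureReal_union (by simp) measurableSet_Iio (ne_top_of_le_ne_top b
    (le_trans (measure_mono subset_union_left) a)) (fm' h1 (hz.trans h)).ne]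
  exact ENNReal.toReal_mono b a

theorem fin (a c : ℝ) (hc : c ≠ 0) (W : ℝ → ℝ) (hW : T W fun β => 1 / (-(a * β) + c * β ^ 2 +
      ∫ x, (exp (β * x) - 1 - (Ioi (-1 : ℝ)).indicator (fun y => β * y) x) ∂μ))
    (cW : ContinuousOn W (Ioi 0)) (k : ℕ) : ContDiffOn ℝ (k + 3 : ℕ) W (Ioi 0) ↔
      ContDiffOn ℝ k (fun y => μ.real (Iio (-y))) (Ioi 0) := by
  have := sf h0 h1
  obtain ⟨γ, g1, g2⟩ := Tg h0 h1
  obtain ⟨τ, t1⟩ := TT h0 h1
  have hg := g1.add (TH.smul (-a - μ.real (Iic (-1))))
  have ha := hg.add (t1.smul (-1))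
  set g := fun x => H x * ∫ y, (min (-y) 1 - min (-y) x) ∂μ + (-a - μ.real (Iic (-1))) * H x with eg
  have d : ∀ x, 0 < x → μ {-x} = 0 → HasDerivAt g (-μ.real (Iio (-x))) x := fun x hx h =>
    ((dg h1 hx h).add_const (-a - μ.real (Iic (-1)))).congr_of_eventuallyEq
      ((eventually_gt_nhds hx).mono fun y hy => by simp [eg, H, hy])
  have hS : {x : ℝ | 0 < μ {-x}}.Countable := Measure.countable_meas_pos_of_disjoint_iUnion
    (As := fun x : ℝ => {-x}) (fun _ => measurableSet_singleton _) fun x y h => by simpa using h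
  have e : (fun x => x * g x) = cv (fun x => g x + -1 * (H x * (x * μ.real (Iio (-x))))) H := by
    funext x
    rcases le_or_gt x 0 with h | h
    · rw [(ha.cv TH).1 x h, hg.1 x h, mul_zero]
    rw [ha.prim]
    simp only
    rw [integral_eq_of_hasDerivAt_off_countable_of_le (fun x => x * g x) _ h.le hS
      (((cA h0 h1 x).add (continuousOn_id.mul (continuousOn_const (c := -a - μ.real (Iic (-1)))))).congr
        fun y hy => ?_) (fun y hy => ?_) (ha.ii _ _), zero_mul, sub_zero]
    · rcases hy.1.eq_or_lt with h | h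
      · simp [← h]
      · simp [eg, H, h, mul_add]
    · refine ((hasDerivAt_id y).mul (d y hy.1.1 (by simpa using hy.2))).congr_deriv ?_
      simp [eg, H, hy.1.1]
  rw [main hg ha e hc (hW.congr ((g2.and (eventually_gt_atTop 0)).mono fun β ⟨h, h'⟩ => ?_)) cW (k + 1)]
  swap
  · rw [h]
    congr 1
    field_simp
    ring
  have key : ContinuousOn (fun y => μ.real (Iio (-y))) (Ioi 0) → (ContDiffOn ℝ (k + 1 : ℕ) g (Ioi 0) ↔
      ContDiffOn ℝ k (fun y => μ.real (Iio (-y))) (Ioi 0)) := fun h => by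
    rw [dif isOpen_Ioi fun x hx => d x hx ?_]
    · exact ⟨fun h => by simpa using h.neg, fun h => h.neg⟩
    have a1 : μ.real {-x} + μ.real (Iio (-x)) ≤ μ.real (Iio (-x)) :=
      ge_of_tendsto ((h.continuousAt (Ioi_mem_nhds hx)).tendsto.mono_left
        (nhdsWithin_le_nhds (s := Iio x))) (eventually_of_mem (Ioo_mem_nhdsLT hx)
          fun z hz => jump h1 hz.1 hz.2)
    exact (measureReal_eq_zero_iff (ne_top_of_le_ne_top (fm h1 hx).ne (measure_mono (by simp)))).mp
      (le_antisymm (by linarith) measureReal_nonneg)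
  refine ⟨fun h => (key ?_).mp h, fun h => (key h.continuousOn).mpr h⟩
  have c1 := (h.continuousOn_deriv_of_isOpen isOpen_Ioi (by simp)).neg
  refine c1.congr fun x (hx : 0 < x) => ?_
  have m : ∀ u v : ℝ, 0 < u → u < v → μ.real (Iio (-v)) ≤ μ.real (Iio (-u)) := fun u v h1' h2 =>
    le_trans (le_add_of_nonneg_left measureReal_nonneg) (jump h1 h1' h2)
  refine eq_of_forall_dist_le fun ε ε0 => ?_
  obtain ⟨δ, δ0, hδ⟩ := Metric.continuousAt_iff.mp (c1.continuousAt (Ioi_mem_nhds hx)) ε ε0
  obtain ⟨u, u1, u2⟩ := (hS.dense_compl ℝ).exists_between (max_lt hx (sub_lt_self x δ0))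
  obtain ⟨v, v1, v2⟩ := (hS.dense_compl ℝ).exists_between (lt_add_of_pos_right x δ0)
  rw [mem_Ioo, max_lt_iff] at u2
  have a1 := hδ (x := u) (by rw [Real.dist_eq, abs_lt]; constructor <;> linarith [u2.1.2])
  have a2 := hδ (x := v) (by rw [Real.dist_eq, abs_lt]; constructor <;> linarith [v2.1, v2.2])
  simp only [Pi.neg_apply, (d u u2.1.1 (by simpa using u1)).deriv,
    (d v (hx.trans v2.1) (by simpa using v1)).deriv, Real.dist_eq, abs_lt, abs_le] at a1 a2 ⊢
  constructor <;> linarith [m u x u2.1.1 u2.2, m x v hx v2.1]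

end

end Pool.Agent.H.MP_79a0fa_pr
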